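import Pool.Agent.H69.OC.Targets
import Pool.Agent.H7.TF.Basic

/-!
# OC, module EUL: on planar maps dual cycles are cuts (dimension count over `ZMod 2`)
-/

set_option autoImplicit false
set_option linter.unusedSectionVars false
open scoped Classical
open Finset

namespace Pool.Agent.H34.OC

open Pool.Agent.H69.OC Pool.Agent.H69.OC.DG Pool.Agent.H7.TF

section Lin

/-- rank and nullity on a subspace -/
theorem rk_null {K M N : Type} [Field K] [AddCommGroup M] [Module K M] [AddCommGroup N]
    [Module K N] [FiniteDimensional K M] (f : M →ₗ[K] N) (P : Submodule K M) :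
    Module.finrank K (P.map f) + Module.finrank K (P ⊓ LinearMap.ker f : Submodule K M) =
      Module.finrank K P := by
  have h := LinearMap.finrank_range_add_finrank_ker (f.domRestrict P)
  have h1 : LinearMap.range (f.domRestrict P) = P.map f := by
    ext x
    simp only [LinearMap.mem_range, Submodule.mem_map, LinearMap.domRestrict_apply]
    constructor
    · rintro ⟨y, hy⟩
      exact ⟨y, y.2, hy⟩
    · rintro ⟨y, hy, hy2⟩
      exact ⟨⟨y, hy⟩, hy2⟩
  have h2 : Module.finrank K (LinearMap.ker (f.domRestrict P)) =
      Module.finrank K (P ⊓ LinearMap.ker f : Submodule K M) := by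
    apply LinearEquiv.finrank_eq
    exact
      { toFun := fun x => ⟨x.1.1, x.1.2, x.2⟩
        invFun := fun x => ⟨⟨x.1, x.2.1⟩, x.2.2⟩
        map_add' := fun _ _ => rfl
        map_smul' := fun _ _ => rfl
        left_inv := fun _ => rfl
        right_inv := fun _ => rfl }
  rw [h1, h2] at h
  exact h

/-- the two ranks of a pairing agree -/
theorem rk_flip {K M N : Type} [Field K] [AddCommGroup M] [Module K M] [AddCommGroup N]
    [Module K N] [FiniteDimensional K M] [FiniteDimensional K N] (b : M →ₗ[K] N →ₗ[K] K) :
    Module.finrank K (LinearMap.range b.flip) = Module.finrank K (LinearMap.range b) := by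
  rw [← LinearMap.finrank_range_dualMap_eq_finrank_range b]
  have h1 : b.flip = (LinearMap.dualMap b).comp (Module.Dual.eval K N) := by
    ext x y
    rfl
  rw [h1, LinearMap.range_comp_of_range_eq_top]
  exact LinearMap.range_eq_top.2 (Module.bijective_dual_eval K N).2

variable {D : Type} [Fintype D]

/-- functions constant on the classes -/
def cst (r : Setoid D) : Submodule (ZMod 2) (D → ZMod 2) where
  carrier := {h | ∀ a b, r a b → h a = h b}
  add_mem' := by
    intro x y hx hy a b hab
    show x a + y a = x b + y b
    rw [hx a b hab, hy a b hab]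
  zero_mem' := fun _ _ _ => rfl
  smul_mem' := by
    intro c x hx a b hab
    show c * x a = c * x b
    rw [hx a b hab]

theorem finrank_cst (r : Setoid D) :
    Module.finrank (ZMod 2) (cst r) = Nat.card (Quotient r) := by
  have e : cst r ≃ₗ[ZMod 2] (Quotient r → ZMod 2) :=
    { toFun := fun x q => Quotient.lift x.1 (fun a b h => x.2 a b h) q
      invFun := fun y => ⟨fun d => y (Quotient.mk r d), fun a b h => by
        show y (Quotient.mk r a) = y (Quotient.mk r b)
        rw [Quotient.sound h]⟩
      map_add' := by
        intro x y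
        funext q
        induction q using Quotient.inductionOn with
        | h d => rfl
      map_smul' := by
        intro c x
        funext q
        induction q using Quotient.inductionOn with
        | h d => rfl
      left_inv := fun _ => rfl
      right_inv := by
        intro y
        funext q
        induction q using Quotient.inductionOn with
        | h d => rfl }
  rw [e.finrank_eq, Module.finrank_fintype_fun_eq_card, Nat.card_eq_fintype_card]

theorem mem_cst_perm {α : Equiv.Perm D} {h : D → ZMod 2} :
    h ∈ cst (Equiv.Perm.SameCycle.setoid α) ↔ ∀ d, h (α d) = h d := by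
  constructor
  · intro hh d
    exact (hh d (α d) (sameCycle_self_apply α d)).symm
  · intro hh a b hab
    have h1 : conn α 1 ≤ Setoid.ker h := by
      rw [conn_le_iff]
      exact ⟨fun x => (hh x).symm, fun x => rfl⟩
    exact h1 (conn_of_sameCycle_left hab)

theorem mem_cst_conn {α β : Equiv.Perm D} {h : D → ZMod 2} :
    h ∈ cst (conn α β) ↔ (∀ d, h (α d) = h d) ∧ ∀ d, h (β d) = h d := by
  constructor
  · intro hh
    exact ⟨fun d => (hh d (α d) (conn_left α β d)).symm,
      fun d => (hh d (β d) (conn_right α β d)).symm⟩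
  · intro hh a b hab
    have h1 : conn α β ≤ Setoid.ker h := by
      rw [conn_le_iff]
      exact ⟨fun x => (hh.1 x).symm, fun x => (hh.2 x).symm⟩
    exact h1 hab

theorem z2_add_eq_zero {a b : ZMod 2} : a + b = 0 ↔ a = b := by
  revert a b
  decide

end Lin

section Count

variable {D : Type} [Fintype D]

/-- the number of cycles of an involution -/
theorem nc_invol (A : Finset D) (i : Equiv.Perm D) (h1 : ∀ d ∈ A, i d ≠ d) (h2 : ∀ d, i (i d) = d)
    (h3 : ∀ d ∉ A, i d = d) : 2 * nc i = Nat.card D + (univ \ A).card := by
  obtain ⟨r, hr⟩ : ∃ r : Setoid D, r = Equiv.Perm.SameCycle.setoid i := ⟨_, rfl⟩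
  have hcls : ∀ a b, r a b ↔ (b = a ∨ b = i a) := by
    intro a b
    rw [hr]
    constructor
    · intro h
      have h4 : conn i 1 ≤ Setoid.comap (fun d : D => ({d, i d} : Set D)) ⊥ := by
        rw [conn_le_iff]
        refine ⟨fun x => ?_, fun x => rfl⟩
        show ({x, i x} : Set D) = {i x, i (i x)}
        rw [h2, Set.pair_comm]
      have h5 : ({a, i a} : Set D) = {b, i b} := h4 (conn_of_sameCycle_left h)
      have h6 : b ∈ ({a, i a} : Set D) := by
        rw [h5]
        exact Set.mem_insert _ _
      exact h6
    · rintro (rfl | rfl)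
      · exact (Equiv.Perm.SameCycle.setoid i).refl _
      · exact sameCycle_self_apply i a
  have e1 : Nat.card D = ∑ q : Quotient r, (univ.filter fun d => Quotient.mk r d = q).card := by
    rw [Nat.card_eq_fintype_card, ← card_univ]
    exact card_eq_sum_card_fiberwise fun _ _ => mem_univ _
  have e2 : (univ \ A).card =
      ∑ q : Quotient r, ((univ \ A).filter fun d => Quotient.mk r d = q).card :=
    card_eq_sum_card_fiberwise fun _ _ => mem_univ _
  rw [e1, e2, ← sum_add_distrib]
  have e3 : ∀ q : Quotient r, (univ.filter fun d => Quotient.mk r d = q).card +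
      ((univ \ A).filter fun d => Quotient.mk r d = q).card = 2 := by
    intro q
    induction q using Quotient.inductionOn with
    | h a =>
      have h4 : ∀ d, Quotient.mk r d = Quotient.mk r a ↔ (d = a ∨ d = i a) := by
        intro d
        rw [Quotient.eq]
        constructor
        · intro h
          exact (hcls a d).1 (Setoid.symm h)
        · intro h
          exact Setoid.symm ((hcls a d).2 h)
      have h5 : (univ.filter fun d => Quotient.mk r d = Quotient.mk r a) = {a, i a} := by
        ext d
        simp only [mem_filter, mem_univ, true_and, h4, mem_insert, mem_singleton]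
      rw [h5]
      by_cases ha : a ∈ A
      · have h6 : ((univ \ A).filter fun d => Quotient.mk r d = Quotient.mk r a) = ∅ := by
          ext d
          simp only [mem_filter, mem_sdiff, mem_univ, true_and, h4, notMem_empty, iff_false]
          rintro ⟨h7, rfl | rfl⟩
          · exact h7 ha
          · by_cases h8 : i a ∈ A
            · exact h7 h8
            · have h9 := h3 _ h8
              rw [h2] at h9
              exact h1 a ha h9.symm
        rw [h6, card_pair (h1 a ha).symm]
        rfl
      · have h6 : ((univ \ A).filter fun d => Quotient.mk r d = Quotient.mk r a) = {a} := by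
          ext d
          simp only [mem_filter, mem_sdiff, mem_univ, true_and, h4, mem_singleton]
          constructor
          · rintro ⟨h7, rfl | rfl⟩
            · rfl
            · exact h3 _ ha
          · rintro rfl
            exact ⟨ha, Or.inl rfl⟩
        rw [h6, h3 a ha, pair_eq_singleton]
        rfl
  rw [sum_congr rfl fun q _ => e3 q, sum_const, smul_eq_mul, mul_comm, nc, card_univ,
    Nat.card_eq_fintype_card, ← hr]

end Count

section Main

variable {D : Type} [Fintype D]

/-- the coboundary -/
noncomputable def dlt (i : Equiv.Perm D) : (D → ZMod 2) →ₗ[ZMod 2] (D → ZMod 2) where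
  toFun h d := h d + h (i d)
  map_add' x y := by
    funext d
    show x d + y d + (x (i d) + y (i d)) = x d + x (i d) + (y d + y (i d))
    ring
  map_smul' c x := by
    funext d
    show c * x d + c * x (i d) = c * (x d + x (i d))
    ring

/-- restriction to the complement of `A` -/
noncomputable def rst (A : Finset D) :
    (D → ZMod 2) →ₗ[ZMod 2] ({d // d ∈ univ \ A} → ZMod 2) where
  toFun h d := h d.1
  map_add' _ _ := rfl
  map_smul' _ _ := rfl

/-- the pairing -/
noncomputable def prg (P Q : Submodule (ZMod 2) (D → ZMod 2)) :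
    P →ₗ[ZMod 2] Q →ₗ[ZMod 2] ZMod 2 :=
  LinearMap.mk₂ (ZMod 2) (fun x y => ∑ d, x.1 d * y.1 d)
    (fun x x' y => by
      rw [← sum_add_distrib]
      exact sum_congr rfl fun d _ => add_mul _ _ _)
    (fun c x y => by
      rw [smul_eq_mul, mul_sum]
      exact sum_congr rfl fun d _ => mul_assoc _ _ _)
    (fun x y y' => by
      rw [← sum_add_distrib]
      exact sum_congr rfl fun d _ => mul_add _ _ _)
    (fun c x y => by
      rw [smul_eq_mul, mul_sum]
      exact sum_congr rfl fun d _ => mul_left_comm _ _ _)

theorem prg_apply (P Q : Submodule (ZMod 2) (D → ZMod 2)) (x : P) (y : Q) :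
    prg P Q x y = ∑ d, x.1 d * y.1 d := rfl

/-- the key statement about permutations -/
theorem key (A : Finset D) (s i : Equiv.Perm D)
    (h1 : ∀ d ∈ A, i d ≠ d) (h2 : ∀ d, i (i d) = d) (h3 : ∀ d ∉ A, i d = d)
    (hpl : Planar s i) (x : D → ZMod 2) (hx1 : ∀ d, x (i d) = x d) (hx2 : ∀ d ∉ A, x d = 0)
    (hx3 : ∀ y ∈ cst (Equiv.Perm.SameCycle.setoid (s * i)), ∑ d, x d * y d = 0) :
    ∃ h : D → ZMod 2, (∀ d, h (s d) = h d) ∧ ∀ d, x d = h d + h (i d) := by
  obtain ⟨Es, hEs⟩ : ∃ P, P = cst (Equiv.Perm.SameCycle.setoid s) := ⟨_, rfl⟩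
  obtain ⟨Ei, hEi⟩ : ∃ P, P = cst (Equiv.Perm.SameCycle.setoid i) := ⟨_, rfl⟩
  obtain ⟨Ep, hEp⟩ : ∃ P, P = cst (Equiv.Perm.SameCycle.setoid (s * i)) := ⟨_, rfl⟩
  obtain ⟨C, hC⟩ : ∃ P, P = Ei ⊓ LinearMap.ker (rst A) := ⟨_, rfl⟩
  have hCm : ∀ z : D → ZMod 2, z ∈ C ↔ (∀ d, z (i d) = z d) ∧ ∀ d ∉ A, z d = 0 := by
    intro z
    rw [hC, Submodule.mem_inf, hEi, mem_cst_perm, LinearMap.mem_ker]
    refine and_congr_right fun _ => ?_
    constructor
    · intro h d hd
      exact congrFun h ⟨d, mem_sdiff.2 ⟨mem_univ d, hd⟩⟩
    · intro h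
      funext d
      exact h d.1 (mem_sdiff.1 d.2).2
  -- rank 1
  have r1 := rk_null (dlt i) Es
  have e1 : Es ⊓ LinearMap.ker (dlt i) = cst (conn s i) := by
    ext z
    rw [Submodule.mem_inf, hEs, mem_cst_perm, LinearMap.mem_ker, mem_cst_conn]
    refine and_congr_right fun _ => ?_
    constructor
    · intro h d
      have h4 : z d + z (i d) = 0 := congrFun h d
      exact (z2_add_eq_zero.1 h4).symm
    · intro h
      funext d
      show z d + z (i d) = 0
      rw [h]
      exact z2_add_eq_zero.2 rfl
  rw [e1, finrank_cst, hEs, finrank_cst] at r1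
  -- rank 2
  have r2 := rk_null (rst A) Ei
  have e2 : Ei.map (rst A) = ⊤ := by
    rw [eq_top_iff]
    intro z _
    rw [Submodule.mem_map]
    refine ⟨fun d => if hd : d ∈ univ \ A then z ⟨d, hd⟩ else 0, ?_, ?_⟩
    · rw [hEi, mem_cst_perm]
      intro d
      by_cases hd : d ∈ A
      · have h4 : i d ∈ A := by
          by_contra h4
          have h5 := h3 _ h4
          rw [h2] at h5
          exact h1 d hd h5.symm
        rw [dif_neg (fun h => (mem_sdiff.1 h).2 h4), dif_neg (fun h => (mem_sdiff.1 h).2 hd)]
      · rw [h3 d hd]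
    · funext d
      show (if hd : d.1 ∈ univ \ A then z ⟨d.1, hd⟩ else 0) = z d
      rw [dif_pos d.2]
  rw [e2, ← hC, finrank_top, Module.finrank_fintype_fun_eq_card, Fintype.card_coe, hEi,
    finrank_cst] at r2
  -- rank 3
  have r3 := LinearMap.finrank_range_add_finrank_ker (prg C Ep)
  have r4 := LinearMap.finrank_range_add_finrank_ker (prg C Ep).flip
  rw [rk_flip] at r4
  have e4 : Module.finrank (ZMod 2) (LinearMap.ker (prg C Ep).flip) =
      Module.finrank (ZMod 2) (cst (conn s i)) := by
    have hmem : ∀ y : Ep, y ∈ LinearMap.ker (prg C Ep).flip ↔ ∀ d, y.1 (i d) = y.1 d := by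
      intro y
      rw [LinearMap.mem_ker]
      constructor
      · intro h d
        by_cases hd : d ∈ A
        · have hid : i d ∈ A := by
            by_contra h4
            have h5 := h3 _ h4
            rw [h2] at h5
            exact h1 d hd h5.symm
          have hz : (fun c => if c = d ∨ c = i d then (1 : ZMod 2) else 0) ∈ C := by
            rw [hCm]
            constructor
            · intro c
              have : (i c = d ∨ i c = i d) ↔ (c = d ∨ c = i d) := by
                constructor
                · rintro (h | h)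
                  · right
                    rw [← h, h2]
                  · left
                    exact i.injective h
                · rintro (rfl | rfl)
                  · exact Or.inr rfl
                  · exact Or.inl (h2 d)
              simp only [this]
            · intro c hc
              rw [if_neg]
              rintro (rfl | rfl)
              · exact hc hd
              · exact hc hid
          have h4 := congrArg (fun g => g ⟨_, hz⟩) h
          have h5 : ∑ c, (if c = d ∨ c = i d then (1 : ZMod 2) else 0) * y.1 c = 0 := h4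
          have h6 : ∀ c, (if c = d ∨ c = i d then (1 : ZMod 2) else 0) * y.1 c =
              (if c = d then y.1 c else 0) + (if c = i d then y.1 c else 0) := by
            intro c
            by_cases h7 : c = d
            · subst h7
              rw [if_pos (Or.inl rfl), if_pos rfl, if_neg (h1 c hd).symm, one_mul, add_zero]
            · by_cases h8 : c = i d
              · rw [if_pos (Or.inr h8), if_neg h7, if_pos h8, one_mul, zero_add]
              · rw [if_neg (by tauto), if_neg h7, if_neg h8, zero_mul, zero_add]
          rw [sum_congr rfl fun c _ => h6 c, sum_add_distrib, sum_ite_eq', sum_ite_eq',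
            if_pos (mem_univ _), if_pos (mem_univ _)] at h5
          exact (z2_add_eq_zero.1 h5).symm
        · rw [h3 d hd]
      · intro h
        apply LinearMap.ext
        intro z
        show ∑ c, z.1 c * y.1 c = 0
        obtain ⟨hz1, hz2⟩ := (hCm z.1).1 z.2
        refine Finset.sum_involution (fun c _ => i c) ?_ ?_ ?_ ?_
        · intro c _
          rw [hz1, h]
          exact z2_add_eq_zero.2 rfl
        · intro c _ hc heq
          by_cases hcA : c ∈ A
          · exact h1 c hcA heq
          · exact hc (by rw [hz2 c hcA, zero_mul])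
        · intro c _
          exact mem_univ _
        · intro c _
          exact h2 c
    have hiff : ∀ z : D → ZMod 2, z ∈ cst (conn s i) ↔ z ∈ Ep ∧ ∀ d, z (i d) = z d := by
      intro z
      rw [mem_cst_conn, hEp, mem_cst_perm]
      constructor
      · rintro ⟨h4, h5⟩
        refine ⟨fun d => ?_, h5⟩
        show z (s (i d)) = z d
        rw [h4, h5]
      · rintro ⟨h4, h5⟩
        refine ⟨fun d => ?_, h5⟩
        have h6 : z (s (i (i d))) = z (i d) := h4 (i d)
        rw [h2, h5] at h6
        exact h6
    apply LinearEquiv.finrank_eq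
    exact
      { toFun := fun y => ⟨y.1.1, (hiff _).2 ⟨y.1.2, (hmem _).1 y.2⟩⟩
        invFun := fun y => ⟨⟨y.1, ((hiff _).1 y.2).1⟩, (hmem _).2 ((hiff _).1 y.2).2⟩
        map_add' := fun _ _ => rfl
        map_smul' := fun _ _ => rfl
        left_inv := fun _ => rfl
        right_inv := fun _ => rfl }
  have e5 : Module.finrank (ZMod 2) Ep = nc (s * i) := by
    rw [hEp, finrank_cst]
    rfl
  rw [e4, finrank_cst, e5] at r4
  -- the subspace `B0`
  obtain ⟨B0, hB0⟩ : ∃ P : Submodule (ZMod 2) (D → ZMod 2),
      P = (LinearMap.ker (prg C Ep)).map C.subtype := ⟨_, rfl⟩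
  have hB0m : ∀ z, z ∈ B0 ↔ z ∈ C ∧ ∀ y ∈ Ep, ∑ d, z d * y d = 0 := by
    intro z
    rw [hB0, Submodule.mem_map]
    constructor
    · rintro ⟨w, hw, rfl⟩
      refine ⟨w.2, fun y hy => ?_⟩
      rw [LinearMap.mem_ker] at hw
      exact congrArg (fun g => g ⟨y, hy⟩) hw
    · rintro ⟨h4, h5⟩
      refine ⟨⟨z, h4⟩, ?_, rfl⟩
      rw [LinearMap.mem_ker]
      apply LinearMap.ext
      intro y
      exact h5 y.1 y.2
  have e6 : Module.finrank (ZMod 2) B0 = Module.finrank (ZMod 2) (LinearMap.ker (prg C Ep)) := by
    rw [hB0]
    exact ((Submodule.equivMapOfInjective C.subtype C.injective_subtype _).finrank_eq).symm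
  have hle : Es.map (dlt i) ≤ B0 := by
    intro z hz
    rw [Submodule.mem_map] at hz
    obtain ⟨h, hh, rfl⟩ := hz
    rw [hEs, mem_cst_perm] at hh
    rw [hB0m, hCm]
    refine ⟨⟨fun d => ?_, fun d hd => ?_⟩, fun y hy => ?_⟩
    · show h (i d) + h (i (i d)) = h d + h (i d)
      rw [h2, add_comm]
    · show h d + h (i d) = 0
      rw [h3 d hd]
      exact z2_add_eq_zero.2 rfl
    · rw [hEp, mem_cst_perm] at hy
      show ∑ d, (h d + h (i d)) * y d = 0
      have e7 : ∑ d, h (i d) * y d = ∑ d, h d * y d := by
        rw [← Equiv.sum_comp (s * i) fun d => h d * y d]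
        refine sum_congr rfl fun d _ => ?_
        have h8 : h ((s * i) d) = h (i d) := hh (i d)
        rw [h8, hy d]
      simp only [add_mul, sum_add_distrib]
      rw [e7]
      exact z2_add_eq_zero.2 rfl
  have hcount := nc_invol A i h1 h2 h3
  have hpl' : nc s + nc i + nc (s * i) = Nat.card D + 2 * comps s i := hpl
  have hs' : Nat.card (Quotient (Equiv.Perm.SameCycle.setoid s)) = nc s := rfl
  have hi' : Nat.card (Quotient (Equiv.Perm.SameCycle.setoid i)) = nc i := rfl
  have hc' : Nat.card (Quotient (conn s i)) = comps s i := rfl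
  rw [hs', hc'] at r1
  rw [hi'] at r2
  rw [hc'] at r4
  have hfin : Module.finrank (ZMod 2) (Es.map (dlt i)) = Module.finrank (ZMod 2) B0 := by
    rw [← hEs] at r1
    omega
  have heq : Es.map (dlt i) = B0 := Submodule.eq_of_le_of_finrank_eq hle hfin
  have hxB : x ∈ B0 := by
    rw [hB0m, hCm, hEp]
    exact ⟨⟨hx1, hx2⟩, hx3⟩
  rw [← heq, Submodule.mem_map] at hxB
  obtain ⟨h, hh, hhx⟩ := hxB
  rw [hEs, mem_cst_perm] at hh
  refine ⟨h, hh, fun d => ?_⟩
  rw [← hhx]
  rfl

end Main

/-- (EUL) -/
theorem eul : T_EUL := by
  intro V D _ _ G A hA s i hrot hs hi hi' hpl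
  obtain ⟨r, hr⟩ : ∃ r : Setoid D, r = Equiv.Perm.SameCycle.setoid (s * i) := ⟨_, rfl⟩
  obtain ⟨φ⟩ : Nonempty (Quotient r ≃ Fin (Fintype.card (Quotient r))) := ⟨Fintype.equivFin _⟩
  have hi2 : ∀ d, i (i d) = d := by
    intro d
    by_cases hd : d ∈ A
    · rw [hi d hd, hi _ (hA d hd), G.inv_inv]
    · rw [hi' d hd, hi' d hd]
  refine ⟨fun d => (φ (Quotient.mk r d) : ℕ), fun d hd => ?_, ?_⟩
  · have h1 : Quotient.mk r (s (G.inv d)) = Quotient.mk r d := by
      apply Quotient.sound
      apply Setoid.symm
      rw [hr]
      have h2 := sameCycle_self_apply (s * i) d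
      have h3 : (s * i) d = s (G.inv d) := by
        show s (i d) = _
        rw [hi d hd]
      rw [h3] at h2
      exact h2
    simp only [h1]
  · intro x hx1 hx2
    have hg1 : ∀ d, (fun d => if d ∈ A then x d else 0) (i d) = (fun d => if d ∈ A then x d else 0) d := by
      intro d
      by_cases hd : d ∈ A
      · simp only [if_pos hd, hi d hd, if_pos (hA d hd), hx1]
      · simp only [hi' d hd]
    have hg2 : ∀ y ∈ cst (Equiv.Perm.SameCycle.setoid (s * i)),
        ∑ d, (fun d => if d ∈ A then x d else 0) d * y d = 0 := by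
      intro y hy
      -- sum over the faces
      have h4 : ∀ d, y d = ∑ k ∈ (univ : Finset (Quotient r)), (if Quotient.mk r d = k then y d else 0) := by
        intro d
        rw [sum_ite_eq, if_pos (mem_univ _)]
      have h5 : ∑ d, (if d ∈ A then x d else 0) * y d =
          ∑ q : Quotient r, ∑ d, (if Quotient.mk r d = q then (if d ∈ A then x d else 0) * y d else 0) := by
        rw [sum_comm]
        refine sum_congr rfl fun d _ => ?_
        rw [sum_ite_eq, if_pos (mem_univ _)]
      rw [h5]
      refine sum_eq_zero fun q _ => ?_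
      induction q using Quotient.inductionOn with
      | h c =>
        have h6 : ∀ d, (if Quotient.mk r d = Quotient.mk r c then (if d ∈ A then x d else 0) * y d else 0) =
            (if d ∈ sel A (fun d => (φ (Quotient.mk r d) : ℕ) = (φ (Quotient.mk r c) : ℕ)) then x d else 0) * y c := by
          intro d
          by_cases h7 : Quotient.mk r d = Quotient.mk r c
          · rw [if_pos h7]
            have h8 : y d = y c := by
              have h9 : r d c := Quotient.exact h7
              rw [hr] at h9
              exact hy d c h9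
            rw [h8]
            by_cases h9 : d ∈ A
            · rw [if_pos h9, if_pos (mem_sel.2 ⟨h9, by rw [h7]⟩)]
            · rw [if_neg h9, if_neg (fun h10 => h9 (mem_sel.1 h10).1)]
          · rw [if_neg h7, if_neg, zero_mul]
            intro h8
            apply h7
            have h9 := (mem_sel.1 h8).2
            exact φ.injective (Fin.ext h9)
        rw [sum_congr rfl fun d _ => h6 d, ← sum_mul, sum_ite_mem, univ_inter, hx2, zero_mul]
    obtain ⟨h, hh1, hh2⟩ := key A s i (fun d hd => by rw [hi d hd]; exact G.inv_ne d) hi2 hi'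
      hpl (fun d => if d ∈ A then x d else 0) hg1 (fun d hd => if_neg hd) hg2
    refine ⟨sel univ fun v => ∃ d ∈ A, G.src d = v ∧ h d = 1, fun d hd => ?_⟩
    have key2 : ∀ d ∈ A, ind (sel univ fun v => ∃ d ∈ A, G.src d = v ∧ h d = 1) (G.src d) = h d := by
      intro d hd
      unfold ind
      have h4 : ∀ d' ∈ A, G.src d' = G.src d → h d' = h d := by
        intro d' hd' hs'
        have h5 := hrot.2 d' hd' d hd hs'
        exact (mem_cst_perm.2 hh1) d' d h5
      by_cases h5 : h d = 1
      · rw [if_pos, h5]
        rw [mem_sel]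
        exact ⟨mem_univ _, d, hd, rfl, h5⟩
      · rw [if_neg]
        · have : ∀ a : ZMod 2, a ≠ 1 → 0 = a := by decide
          exact this _ h5
        · rw [mem_sel]
          rintro ⟨_, d', hd', h6, h7⟩
          rw [h4 d' hd' h6] at h7
          exact h5 h7
    have h4 := hh2 d
    rw [if_pos hd] at h4
    rw [h4, key2 d hd, hi d hd, ← src_inv, key2 _ (hA d hd)]

end Pool.Agent.H34.OC
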