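import Pool.Agent.H69.OC.Targets

/-!
# OC, module PATH: enumeration of a shortest path
-/

set_option autoImplicit false
set_option linter.unusedSectionVars false
open scoped Classical
open Finset

namespace Pool.Agent.H34.OC

open Pool.Agent.H69.OC Pool.Agent.H69.OC.DG

variable {V D : Type} [Fintype V] [Fintype D] {G : DG V D}

/-- a walk of length `n` from `a` to `b` in `X` with edges of `A` -/
def Wk (G : DG V D) (A : Finset D) (X : Finset V) (a b : V) (n : ℕ) (v : ℕ → V) (c : ℕ → D) :
    Prop :=
  v 0 = a ∧ v n = b ∧ (∀ i < n, c i ∈ A ∧ G.src (c i) = v i ∧ G.tgt (c i) = v (i + 1)) ∧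
    ∀ i ≤ n, v i ∈ X

/-- existence from reachability -/
theorem exists_wk {A : Finset D} {X : Finset V} {a b : V} (e : D) (h : G.Reach A X a b) :
    ∃ n v c, Wk G A X a b n v c := by
  have h1 := h.2 (sel X fun x => ∃ n v c, Wk G A X a x n v c) (sel_sub _ _) ?_ ?_
  · exact (mem_sel.1 h1).2
  · rw [mem_sel]
    exact ⟨h.1, 0, fun _ => a, fun _ => e, rfl, rfl, fun i hi => absurd hi (by omega),
      fun _ _ => h.1⟩
  · intro d hd h2 h3
    rw [mem_sel] at h2 ⊢
    obtain ⟨_, n, v, c, h4, h5, h6, h7⟩ := h2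
    refine ⟨h3, n + 1, fun k => if k ≤ n then v k else G.tgt d,
      fun k => if k < n then c k else d, by simp [h4], by simp, ?_, ?_⟩
    · intro i hi
      rcases Nat.lt_or_ge i n with h | h
      · have := h6 i h
        simp only [h, if_true, if_pos (show i ≤ n by omega), if_pos (show i + 1 ≤ n by omega)]
        exact this
      · have : i = n := by omega
        subst this
        simp only [lt_irrefl, if_false, le_refl, if_true, if_neg (show ¬ i + 1 ≤ i by omega)]
        exact ⟨hd, h5.symm, trivial⟩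
    · intro i hi
      simp only
      split_ifs with h
      · exact h7 i h
      · exact h3

/-- shortcuts -/
theorem shortcut {A : Finset D} {X : Finset V} {a b : V} {n : ℕ} {v : ℕ → V} {c : ℕ → D}
    (h : Wk G A X a b n v c) {i j : ℕ} (hij : i + 1 < j) (hj : j ≤ n) {d : D} (hd : d ∈ A)
    (hs : G.src d = v i) (ht : G.tgt d = v j) :
    ∃ v' c', Wk G A X a b (n - (j - i - 1)) v' c' := by
  obtain ⟨h0, hn, hc, hX⟩ := h
  refine ⟨fun k => if k ≤ i then v k else v (k + (j - i - 1)),
    fun k => if k < i then c k else if k = i then d else c (k + (j - i - 1)), by simp [h0], ?_, ?_, ?_⟩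
  · simp only
    rw [if_neg (by omega), show n - (j - i - 1) + (j - i - 1) = n by omega]
    exact hn
  · intro k hk
    simp only
    rcases lt_trichotomy k i with h | h | h
    · rw [if_pos h, if_pos (by omega), if_pos (by omega)]
      exact hc k (by omega)
    · subst h
      rw [if_neg (by omega), if_pos rfl, if_pos (le_refl k), if_neg (by omega),
        show k + 1 + (j - k - 1) = j by omega]
      exact ⟨hd, hs, ht⟩
    · rw [if_neg (by omega), if_neg (by omega), if_neg (by omega), if_neg (by omega)]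
      have := hc (k + (j - i - 1)) (by omega)
      rw [show k + 1 + (j - i - 1) = k + (j - i - 1) + 1 by omega]
      exact this
  · intro k hk
    simp only
    split_ifs
    · exact hX k (by omega)
    · exact hX _ (by omega)

/-- cutting out a closed part -/
theorem cutout {A : Finset D} {X : Finset V} {a b : V} {n : ℕ} {v : ℕ → V} {c : ℕ → D}
    (h : Wk G A X a b n v c) {i j : ℕ} (hij : i < j) (hj : j ≤ n) (hv : v i = v j) :
    ∃ v' c', Wk G A X a b (n - (j - i)) v' c' := by
  obtain ⟨h0, hn, hc, hX⟩ := h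
  refine ⟨fun k => if k ≤ i then v k else v (k + (j - i)),
    fun k => if k < i then c k else c (k + (j - i)), by simp [h0], ?_, ?_, ?_⟩
  · simp only
    split_ifs with h
    · have h1 : n - (j - i) = i := by omega
      rw [h1, hv, show j = n by omega]
      exact hn
    · rw [show n - (j - i) + (j - i) = n by omega]
      exact hn
  · intro k hk
    simp only
    rcases lt_trichotomy k i with h | h | h
    · rw [if_pos h, if_pos (by omega), if_pos (by omega)]
      exact hc k (by omega)
    · subst h
      rw [if_neg (by omega), if_pos (le_refl k), if_neg (by omega), hv,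
        show k + (j - k) = j by omega, show k + 1 + (j - k) = j + 1 by omega]
      exact hc j (by omega)
    · rw [if_neg (by omega), if_neg (by omega), if_neg (by omega)]
      have := hc (k + (j - i)) (by omega)
      rw [show k + 1 + (j - i) = k + (j - i) + 1 by omega]
      exact this
  · intro k hk
    simp only
    split_ifs
    · exact hX k (by omega)
    · exact hX _ (by omega)

/-- a walk avoiding `x` gives reachability avoiding `x` -/
theorem wk_reach {A : Finset D} {X : Finset V} {a b x : V} {n : ℕ} {v : ℕ → V} {c : ℕ → D}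
    (h : Wk G A X a b n v c) (hx : ∀ i ≤ n, v i ≠ x) : G.Reach A (X \ {x}) a b := by
  obtain ⟨h0, hn, hc, hX⟩ := h
  have key : ∀ k ≤ n, G.Reach A (X \ {x}) a (v k) := by
    intro k
    induction k with
    | zero =>
      intro _
      rw [h0]
      apply Reach.refl
      rw [mem_sdiff, mem_singleton, ← h0]
      exact ⟨hX 0 (by omega), hx 0 (by omega)⟩
    | succ k ih =>
      intro hk
      obtain ⟨h1, h2, h3⟩ := hc k (by omega)
      have h4 := ih (by omega)
      rw [← h2] at h4
      rw [← h3]
      refine h4.tail h1 ?_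
      rw [h3, mem_sdiff, mem_singleton]
      exact ⟨hX _ hk, hx _ hk⟩
  rw [← hn]
  exact key n le_rfl

/-- two darts at a vertex which do not leave `W`: at most one dart leaves -/
theorem out_le_one (hG : G.Cub) {W : Finset V} {x : V} {d d' : D} (hdd : d ≠ d')
    (hs : G.src d = x) (hs' : G.src d' = x) (ht : G.tgt d ∈ W) (ht' : G.tgt d' ∈ W) :
    (sel univ fun c => G.src c = x ∧ G.tgt c ∉ W).card ≤ 1 := by
  have h1 := hG x
  have h2 : (sel univ fun c => G.src c = x ∧ G.tgt c ∉ W) ∪ {d, d'} ⊆
      sel univ fun c => G.src c = x := by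
    intro c hc
    rw [mem_union, mem_sel, mem_insert, mem_singleton] at hc
    rw [mem_sel]
    refine ⟨mem_univ _, ?_⟩
    rcases hc with h | rfl | rfl
    · exact h.2.1
    · exact hs
    · exact hs'
  have h3 := card_le_card h2
  rw [card_union_of_disjoint, card_pair hdd, h1] at h3
  · omega
  · rw [disjoint_left]
    intro c hc hc'
    rw [mem_sel] at hc
    rw [mem_insert, mem_singleton] at hc'
    rcases hc' with rfl | rfl
    · exact hc.2.2 ht
    · exact hc.2.2 ht'

/-- no loops -/
theorem no_loop (hG : G.Cub) (h3 : G.C3) {X : Finset V} (hX : X ≠ univ) {d : D}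
    (hd : G.src d ∈ X) : G.src d ≠ G.tgt d := by
  intro h
  have h1 : ({G.src d} : Finset V) ≠ univ := by
    intro h1
    apply hX
    apply eq_univ_of_forall
    intro x
    have : x ∈ ({G.src d} : Finset V) := h1 ▸ mem_univ x
    rw [mem_singleton] at this
    exact this ▸ hd
  have h2 := h3 {G.src d} (singleton_nonempty _) h1
  have h4 := out_le_one (G := G) hG (W := {G.src d}) (x := G.src d) (d := d) (d' := G.inv d)
    (G.inv_ne d).symm rfl h.symm (by rw [mem_singleton]; exact h.symm)
    (by rw [mem_singleton, tgt_inv])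
  have h5 : G.cut univ {G.src d} = sel univ fun c => G.src c = G.src d ∧ G.tgt c ∉ ({G.src d} : Finset V) := by
    ext c
    rw [mem_cut, mem_sel, mem_singleton]
  rw [h5] at h2
  omega

/-- no parallel edges -/
theorem no_par (hG : G.Cub) (h3 : G.C3) {X : Finset V} (hX : X ≠ univ) {d d' : D}
    (hd : G.src d ∈ X) (ht : G.tgt d ∈ X) (h1 : G.src d' = G.src d) (h2 : G.tgt d' = G.tgt d) :
    d' = d := by
  by_contra hne
  have hl := no_loop hG h3 hX hd
  obtain ⟨W, hW⟩ : ∃ W : Finset V, W = {G.src d, G.tgt d} := ⟨_, rfl⟩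
  have hWX : W ⊆ X := by
    rw [hW]
    intro x hx
    rw [mem_insert, mem_singleton] at hx
    rcases hx with rfl | rfl
    · exact hd
    · exact ht
  have hsW : G.src d ∈ W := by rw [hW]; exact mem_insert_self _ _
  have htW : G.tgt d ∈ W := by rw [hW]; exact mem_insert_of_mem (mem_singleton_self _)
  have h4 := h3 W ⟨_, hsW⟩ (fun h => hX (univ_subset_iff.1 (h ▸ hWX)))
  have h5 := out_le_one (G := G) hG (W := W) (x := G.src d) (d := d) (d' := d')
    (Ne.symm hne) rfl h1 htW (h2 ▸ htW)
  have h6 := out_le_one (G := G) hG (W := W) (x := G.tgt d) (d := G.inv d) (d' := G.inv d')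
    (fun h => hne (inv_inj h).symm) rfl h2 (by rw [tgt_inv]; exact hsW)
    (by rw [tgt_inv, h1]; exact hsW)
  have h7 : G.cut univ W ⊆ (sel univ fun c => G.src c = G.src d ∧ G.tgt c ∉ W) ∪
      (sel univ fun c => G.src c = G.tgt d ∧ G.tgt c ∉ W) := by
    intro c hc
    rw [mem_cut] at hc
    rw [mem_union, mem_sel, mem_sel]
    have h8 := hc.2.1
    rw [hW, mem_insert, mem_singleton] at h8
    rcases h8 with h8 | h8
    · exact Or.inl ⟨mem_univ _, h8, hc.2.2⟩
    · exact Or.inr ⟨mem_univ _, h8, hc.2.2⟩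
  have h8 := (card_le_card h7).trans (card_union_le _ _)
  omega

/-- (PATH) -/
theorem path : T_PATH := by
  intro V D _ _ G hG h3 e X hab hX hR hmin
  obtain ⟨A, hA⟩ : ∃ A : Finset D, A = univ \ {e, G.inv e} := ⟨_, rfl⟩
  rw [← hA] at hR
  have hAcl : G.Cl A := by rw [hA]; exact cl_sdiff_pair cl_univ e
  have hmemA : ∀ d, d ∈ A ↔ d ≠ e ∧ d ≠ G.inv e := by
    intro d
    rw [hA, mem_sdiff, mem_insert, mem_singleton]
    simp
  have hex : ∃ n, ∃ v c, Wk G A X (G.src e) (G.tgt e) n v c := exists_wk e hR
  obtain ⟨n, hn⟩ : ∃ n, n = Nat.find hex := ⟨_, rfl⟩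
  obtain ⟨v, c, hw⟩ := Nat.find_spec hex
  rw [← hn] at hw
  have hsh : ∀ k < n, ¬ ∃ v c, Wk G A X (G.src e) (G.tgt e) k v c := by
    intro k hk
    exact Nat.find_min hex (hn ▸ hk)
  have hw' := hw
  obtain ⟨h0, hnn, hc, hXv⟩ := hw'
  have hinj1 : ∀ i j, i < j → j ≤ n → v i ≠ v j := by
    intro i j hij hj hv
    exact hsh (n - (j - i)) (by omega) (cutout hw hij hj hv)
  have hinj : ∀ i ≤ n, ∀ j ≤ n, v i = v j → i = j := by
    intro i hi j hj hv
    by_contra hne
    rcases lt_or_gt_of_ne hne with h | h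
    · exact hinj1 i j h hj hv
    · exact hinj1 j i h hi hv.symm
  have hmem : ∀ x, x ∈ X ↔ ∃ i ≤ n, x = v i := by
    intro x
    constructor
    · intro hx
      by_contra hcon
      push Not at hcon
      refine hmin x hx ?_ ?_ ?_
      · intro h
        exact hcon 0 (by omega) (h.trans h0.symm)
      · intro h
        exact hcon n le_rfl (h.trans hnn.symm)
      · rw [← hA]
        exact wk_reach hw fun i hi => (hcon i hi).symm
    · rintro ⟨i, hi, rfl⟩
      exact hXv i hi
  have hind : ∀ d ∈ A, ∀ i j, i ≤ j → j ≤ n → G.src d = v i → G.tgt d = v j →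
      ∃ i < n, d = c i ∨ d = G.inv (c i) := by
    intro d hd i j hij hj hs ht
    have hsX : G.src d ∈ X := hs ▸ hXv i (by omega)
    have htX : G.tgt d ∈ X := ht ▸ hXv j hj
    have hl := no_loop hG h3 hX hsX
    have h1 : i ≠ j := by
      rintro rfl
      exact hl (hs.trans ht.symm)
    by_cases h2 : j = i + 1
    · subst h2
      obtain ⟨h4, h5, h6⟩ := hc i (by omega)
      exact ⟨i, by omega, Or.inl (no_par hG h3 hX (d := c i) (d' := d)
        (by rw [h5]; exact hXv i (by omega)) (by rw [h6]; exact hXv _ hj) (hs.trans h5.symm)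
        (ht.trans h6.symm))⟩
    · exact absurd (shortcut hw (show i + 1 < j by omega) hj hd hs ht) (hsh _ (by omega))
  refine ⟨n, v, c, ?_, h0, hnn, ?_, hinj, hmem, ?_⟩
  · rcases Nat.eq_zero_or_pos n with h | h
    · subst h
      exact absurd (h0.symm.trans hnn) hab
    · exact h
  · intro i hi
    obtain ⟨h4, h5, h6⟩ := hc i hi
    rw [hmemA] at h4
    exact ⟨h4.1, h4.2, h5, h6⟩
  · intro d hd1 hd2 hs ht
    have hd : d ∈ A := (hmemA d).2 ⟨hd1, hd2⟩
    obtain ⟨i, hi, hi2⟩ := (hmem _).1 hs
    obtain ⟨j, hj, hj2⟩ := (hmem _).1 ht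
    rcases le_total i j with h | h
    · exact hind d hd i j h hj hi2 hj2
    · obtain ⟨k, hk, hk2⟩ := hind (G.inv d) (hAcl _ hd) j i h hi hj2
        (by rw [tgt_inv]; exact hi2)
      refine ⟨k, hk, ?_⟩
      rcases hk2 with h4 | h4
      · exact Or.inr (inv_eq_iff.1 h4)
      · exact Or.inl (inv_inj h4)

end Pool.Agent.H34.OC
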