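import Pool.Agent.H69.OC.Targets

/-!
# OC, modules WALK and SPLIT: walks along a label
-/

set_option autoImplicit false
set_option linter.unusedSectionVars false
open scoped Classical
open Finset

namespace Pool.Agent.H34.OC

open Pool.Agent.H69.OC Pool.Agent.H69.OC.DG

variable {V D : Type} [Fintype V] [Fintype D] {G : DG V D}

/-- uniqueness of the previous dart -/
theorem pre_unique {A : Finset D} (hA : G.Cl A) {f : D → ℕ} {Y : Finset V}
    (hb : ∀ v ∈ Y, G.BalAt A f v) (hdeg : ∀ v ∈ Y, (sel A fun d => G.src d = v).card ≤ 3)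
    (hne : ∀ d ∈ A, G.Tc Y d → f d ≠ f (G.inv d)) {x y : D} (hx : x ∈ A) (hy : y ∈ A)
    (h : G.tgt x = G.tgt y) (hY : G.tgt x ∈ Y) (hf : f x = f y) : x = y := by
  have h1 : G.inv x = G.inv y := by
    refine bal_inj' (G := G) (A := A) (f := f) (v := G.tgt x) (hdeg _ hY) (hb _ hY)
      (fun d hd hs => hne d hd (Or.inl (hs ▸ hY))) (hA _ hx) (hA _ hy) rfl h.symm ?_
    rw [G.inv_inv, G.inv_inv]
    exact hf
  exact inv_inj h1

/-- the walk -/
theorem exists_walk {A : Finset D} (hA : G.Cl A) {f : D → ℕ} {Y : Finset V}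
    (hb : ∀ v ∈ Y, G.BalAt A f v) (hdeg : ∀ v ∈ Y, (sel A fun d => G.src d = v).card ≤ 3)
    (hne : ∀ d ∈ A, G.Tc Y d → f d ≠ f (G.inv d)) {d0 : D} (hd0 : d0 ∈ A)
    (hs : G.src d0 ∉ Y) (ht : G.tgt d0 ∈ Y) :
    ∃ (n : ℕ) (o : ℕ → D), o 0 = d0 ∧ (∀ i ≤ n + 1, o i ∈ A ∧ f (o i) = f d0) ∧
      (∀ i ≤ n, G.tgt (o i) = G.src (o (i + 1)) ∧ G.tgt (o i) ∈ Y) ∧ G.tgt (o (n + 1)) ∉ Y ∧
      (∀ i ≤ n + 1, ∀ j ≤ n + 1, o i = o j → i = j) := by
  have hnext : ∀ d : D, ∃ d' : D, (d ∈ A → G.tgt d ∈ Y →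
      d' ∈ A ∧ G.src d' = G.tgt d ∧ f d' = f d) := by
    intro d
    by_cases h : d ∈ A ∧ G.tgt d ∈ Y
    · obtain ⟨d', h1, h2, h3⟩ := bal_next hA (hb _ h.2) h.1
      exact ⟨d', fun _ _ => ⟨h1, h2, h3⟩⟩
    · exact ⟨d, fun h1 h2 => absurd ⟨h1, h2⟩ h⟩
  choose next hnext using hnext
  obtain ⟨o, ho⟩ : ∃ o : ℕ → D, o = fun i => next^[i] d0 := ⟨_, rfl⟩
  have ho0 : o 0 = d0 := by rw [ho]; rfl
  have hos : ∀ i, o (i + 1) = next (o i) := by
    intro i
    rw [ho]
    exact Function.iterate_succ_apply' next i d0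
  have hmem : ∀ j, (∀ k < j, G.tgt (o k) ∈ Y) → o j ∈ A ∧ f (o j) = f d0 := by
    intro j
    induction j with
    | zero => intro _; rw [ho0]; exact ⟨hd0, rfl⟩
    | succ j ih =>
      intro h
      obtain ⟨h1, h2⟩ := ih fun k hk => h k (by omega)
      obtain ⟨h3, h4, h5⟩ := hnext (o j) h1 (h j (by omega))
      rw [hos]
      exact ⟨h3, h5.trans h2⟩
  have hsrc : ∀ j, (∀ k < j + 1, G.tgt (o k) ∈ Y) → G.src (o (j + 1)) = G.tgt (o j) := by
    intro j h
    rw [hos]
    exact (hnext (o j) (hmem j fun k hk => h k (by omega)).1 (h j (by omega))).2.1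
  have hinj : ∀ i j, i < j → (∀ k < j, G.tgt (o k) ∈ Y) → o i ≠ o j := by
    intro i
    induction i with
    | zero =>
      intro j hj h heq
      obtain ⟨j', rfl⟩ : ∃ j', j = j' + 1 := ⟨j - 1, by omega⟩
      have h1 := hsrc j' h
      rw [← heq, ho0] at h1
      exact hs (h1 ▸ h j' (by omega))
    | succ i ih =>
      intro j hj h heq
      obtain ⟨j', rfl⟩ : ∃ j', j = j' + 1 := ⟨j - 1, by omega⟩
      have h1 := hsrc j' h
      have h2 := hsrc i fun k hk => h k (by omega)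
      rw [heq] at h2
      obtain ⟨h3, h4⟩ := hmem i fun k hk => h k (by omega)
      obtain ⟨h5, h6⟩ := hmem j' fun k hk => h k (by omega)
      exact ih j' (by omega) (fun k hk => h k (by omega))
        (pre_unique hA hb hdeg hne h3 h5 (h2.symm.trans h1) (h i (by omega)) (h4.trans h6.symm))
  have hex : ∃ N, G.tgt (o N) ∉ Y := by
    by_contra hcon
    push Not at hcon
    have : Function.Injective o := by
      intro i j hij
      by_contra hne'
      rcases lt_or_gt_of_ne hne' with h | h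
      · exact hinj i j h (fun k _ => hcon k) hij
      · exact hinj j i h (fun k _ => hcon k) hij.symm
    exact not_injective_infinite_finite o this
  have hlt : ∀ k < Nat.find hex, G.tgt (o k) ∈ Y := by
    intro k hk
    have := Nat.find_min hex hk
    rwa [not_not] at this
  obtain ⟨n, hn⟩ : ∃ n, Nat.find hex = n + 1 := by
    refine ⟨Nat.find hex - 1, ?_⟩
    have : Nat.find hex ≠ 0 := by
      intro h0
      have h1 := Nat.find_spec hex
      rw [h0, ho0] at h1
      exact h1 ht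
    omega
  rw [hn] at hlt
  have hN := Nat.find_spec hex
  rw [hn] at hN
  refine ⟨n, o, ho0, fun i hi => hmem i fun k hk => hlt k (by omega), fun i hi =>
    ⟨(hsrc i fun k hk => hlt k (by omega)).symm, hlt i (by omega)⟩, hN, ?_⟩
  intro i hi j hj hij
  by_contra hne'
  rcases lt_or_gt_of_ne hne' with h | h
  · exact hinj i j h (fun k hk => hlt k (by omega)) hij
  · exact hinj j i h (fun k hk => hlt k (by omega)) hij.symm

/-- (WALK) -/
theorem walk : T_WALK := by
  intro V D _ _ G A f Y hA hb hdeg hne d0 hd0 hs ht d1 hd1 hR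
  obtain ⟨n, o, h0, h1, h2, h3, h4⟩ := exists_walk hA hb hdeg hne hd0 hs ht
  have hlast : o (n + 1) = d1 := by
    refine hd1 _ (h1 _ le_rfl).1 ?_ h3 (h1 _ le_rfl).2
    rw [← (h2 n le_rfl).1]
    exact (h2 n le_rfl).2
  refine ⟨n, o, h0, hlast, h1, h2, h3, ?_, ?_⟩
  · intro i hi j hj hij
    apply h4 i (by omega) j (by omega)
    exact pre_unique hA hb hdeg hne (h1 i (by omega)).1 (h1 j (by omega)).1 hij (h2 i hi).2
      ((h1 i (by omega)).2.trans (h1 j (by omega)).2.symm)
  · intro d hd hsd hfd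
    by_contra hcon
    push Not at hcon
    refine hR (sel A fun d => G.src d ∈ Y ∧ f d = f d0 ∧ ∀ i ≤ n, d ≠ o (i + 1)) (sel_sub _ _)
      ⟨d, mem_sel.2 ⟨hd, hsd, hfd, hcon⟩⟩ ?_ ?_
    · intro x hx
      rw [mem_sel] at hx
      refine ⟨hx.2.1, ?_, hx.2.2.1⟩
      by_contra hxt
      have := hd1 x hx.1 hx.2.1 hxt hx.2.2.1
      exact hx.2.2.2 n le_rfl (this.trans hlast.symm)
    · intro x hx y hy hxy hf
      rw [mem_sel] at hx
      have hxt : G.tgt x ∈ Y := by
        by_contra hxt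
        have := hd1 x hx.1 hx.2.1 hxt hx.2.2.1
        exact hx.2.2.2 n le_rfl (this.trans hlast.symm)
      rw [mem_sel]
      refine ⟨hy, hxy ▸ hxt, hf.trans hx.2.2.1, fun i hi hyo => ?_⟩
      have h5 : x = o i := by
        refine pre_unique hA hb hdeg hne hx.1 (h1 i (by omega)).1 ?_ hxt
          (hx.2.2.1.trans (h1 i (by omega)).2.symm)
        rw [← hxy, hyo, (h2 i hi).1]
      rcases Nat.eq_zero_or_pos i with rfl | hpos
      · rw [h0] at h5
        exact hs (h5 ▸ hx.2.1)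
      · obtain ⟨j, rfl⟩ : ∃ j, i = j + 1 := ⟨i - 1, by omega⟩
        exact hx.2.2.2 j (by omega) h5

/-- (SPLIT) -/
theorem split : T_SPLIT := by
  intro V D _ _ G hG Y lam hb hne d0 hs ht
  obtain ⟨n, o, h0, h1, h2, h3, h4⟩ := exists_walk (G := G) (A := univ) cl_univ hb
    (fun v _ => (hG v).le) (fun d _ h => hne d h) (mem_univ d0) hs ht
  have hsrc : ∀ i ≤ n, G.src (o (i + 1)) ∈ Y := fun i hi => (h2 i hi).1 ▸ (h2 i hi).2
  refine ⟨(range (n + 2)).image o, ?_, ?_, ?_, ?_, o (n + 1), ?_, hsrc n le_rfl, h3, ?_⟩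
  · rw [mem_image]
    exact ⟨0, mem_range.2 (by omega), h0⟩
  · intro d hd
    rw [mem_image] at hd
    obtain ⟨i, hi, rfl⟩ := hd
    rw [mem_range] at hi
    refine ⟨(h1 i (by omega)).2, ?_⟩
    rcases Nat.eq_zero_or_pos i with rfl | hpos
    · exact Or.inr (h2 0 (by omega)).2
    · obtain ⟨j, rfl⟩ : ∃ j, i = j + 1 := ⟨i - 1, by omega⟩
      exact Or.inl (hsrc j (by omega))
  · intro d hd hsd
    rw [mem_image] at hd
    obtain ⟨i, hi, rfl⟩ := hd
    rw [mem_range] at hi
    rcases Nat.eq_zero_or_pos i with rfl | hpos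
    · exact h0
    · obtain ⟨j, rfl⟩ : ∃ j, i = j + 1 := ⟨i - 1, by omega⟩
      exact absurd (hsrc j (by omega)) hsd
  · intro v hv
    have e1 : (sel univ fun d => G.src d = v ∧ d ∈ (range (n + 2)).image o) =
        (sel (range (n + 1)) fun i => G.tgt (o i) = v).image fun i => o (i + 1) := by
      ext d
      simp only [mem_sel, mem_univ, true_and, mem_image, mem_range]
      constructor
      · rintro ⟨h5, i, hi, rfl⟩
        rcases Nat.eq_zero_or_pos i with rfl | hpos
        · rw [h0] at h5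
          exact absurd (h5 ▸ hv) hs
        · obtain ⟨j, rfl⟩ : ∃ j, i = j + 1 := ⟨i - 1, by omega⟩
          exact ⟨j, ⟨by omega, (h2 j (by omega)).1.trans h5⟩, rfl⟩
      · rintro ⟨i, ⟨hi, h5⟩, rfl⟩
        exact ⟨(h2 i (by omega)).1.symm.trans h5, i + 1, by omega, rfl⟩
    have e2 : (sel univ fun d => G.src d = v ∧ G.inv d ∈ (range (n + 2)).image o) =
        (sel (range (n + 1)) fun i => G.tgt (o i) = v).image fun i => G.inv (o i) := by
      ext d
      simp only [mem_sel, mem_univ, true_and, mem_image, mem_range]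
      constructor
      · rintro ⟨h5, i, hi, h6⟩
        have h7 : G.inv (o i) = d := by rw [h6, G.inv_inv]
        have h8 : G.tgt (o i) = v := by
          rw [h6, tgt_inv]
          exact h5
        refine ⟨i, ⟨?_, h8⟩, h7⟩
        by_contra hcon
        have : i = n + 1 := by omega
        subst this
        exact h3 (h8 ▸ hv)
      · rintro ⟨i, ⟨hi, h5⟩, rfl⟩
        exact ⟨h5, i, by omega, (G.inv_inv _).symm⟩
    rw [e1, e2, card_image_of_injOn, card_image_of_injOn]
    · intro i hi j hj hij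
      rw [mem_coe, mem_sel, mem_range] at hi hj
      exact h4 i (by omega) j (by omega) (inv_inj hij)
    · intro i hi j hj hij
      rw [mem_coe, mem_sel, mem_range] at hi hj
      have := h4 (i + 1) (by omega) (j + 1) (by omega) hij
      omega
  · rw [mem_image]
    exact ⟨n + 1, mem_range.2 (by omega), rfl⟩
  · intro d hd _ htd
    rw [mem_image] at hd
    obtain ⟨i, hi, rfl⟩ := hd
    rw [mem_range] at hi
    by_cases h5 : i ≤ n
    · exact absurd (h2 i h5).2 htd
    · rw [show i = n + 1 by omega]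

end Pool.Agent.H34.OC
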